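import Pool.Agent.Lib.H5TP.Defs2
import Pool.Agent.Lib.H93W.Twin

/-!
# H4HR.TwinS: the twin lemma for the graph with a twin of one vertex
-/

set_option autoImplicit false

namespace Pool.Agent.Lib.H5TP

open Finset SimpleGraph Pool.Agent.Lib.Helper15.Chrom Pool.Agent.Lib.H5OV Pool.Agent.Lib.H5TF
  Pool.Agent.Lib.H93K Pool.Agent.Lib.H15PL Pool.Agent.Lib.H5HG

/-- The data of `H93W.Twin` for the twin graph. -/
private theorem twinData {V VT : Type} {s : ℕ} {T : SimpleGraph VT} {G : SimpleGraph V}
    (Ψ : Fin s → V → VT)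
    (hΨ : ∀ i j b b', i ≠ j → G.Adj b b' → T.Adj (Ψ i b) (Ψ j b')) {v : V} {a b : VT}
    {i₀ j₀ : Fin s} (hab : T.Adj a b) (ha : ∀ i w, i ≠ i₀ → G.Adj v w → T.Adj a (Ψ i w))
    (hb : ∀ i w, i ≠ j₀ → G.Adj v w → T.Adj b (Ψ i w)) :
    H93W.TwinData T (twin G v) (fun i x => Option.elim x a (Ψ i)) (some v) none i₀ j₀ a b := by
  refine ⟨?_, ?_, ?_, hab⟩
  · intro i j x z hij hxz _ hx _ hz
    rcases x with _ | x
    · exact absurd rfl hx
    · rcases z with _ | z
      · exact absurd rfl hz
      · exact hΨ i j x z hij hxz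
  · intro i x hi hx hx1
    rcases x with _ | x
    · exact absurd rfl hx1
    · exact ha i x hi hx
  · intro i x hi hx hx0
    rcases x with _ | x
    · exact hx.elim
    · have h1 : G.Adj x v ∨ x = v := hx
      rcases h1 with h1 | h1
      · exact hb i x hi h1.symm
      · exact absurd (congrArg some h1) hx0

/-- **Twin lemma.** -/
theorem twin_lemma {V VT : Type} [Fintype V] [Fintype VT] {q s : ℕ} {τ : ℝ} (hq : 1 ≤ q)
    {T : SimpleGraph VT} (hT : T.CliqueFree s)
    (hα : ∀ I : Finset VT, T.IsIndepSet (I : Set VT) → #I ≤ q) {y : Finset VT → ℝ}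
    (hy : FracCol T y) (hyτ : ∑ I, y I ≤ τ) {G : SimpleGraph V} (Ψ : Fin s → V → VT)
    (hΨ : ∀ i j b b', i ≠ j → G.Adj b b' → T.Adj (Ψ i b) (Ψ j b')) {v : V} {a b : VT}
    {i₀ j₀ : Fin s} (_hij : i₀ ≠ j₀) (hab : T.Adj a b)
    (ha : ∀ i w, i ≠ i₀ → G.Adj v w → T.Adj a (Ψ i w))
    (hb : ∀ i w, i ≠ j₀ → G.Adj v w → T.Adj b (Ψ i w))
    (hcl : ∀ w, w ≠ v → ∃ K : Finset V, G.IsNClique (q + 2) K ∧ w ∈ K ∧ v ∉ K)
    {g : Option V → ℝ} (hg : FracClique (twin G v) g) (hgτ : τ ≤ ∑ x, g x) :
    ∃ ψ : Option V → VT, ∀ x x', 0 < g x → 0 < g x' → (twin G v).Adj x x' →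
      T.Adj (ψ x) (ψ x') := by
  classical
  obtain ⟨m, rfl⟩ : ∃ m, q = m + 1 := ⟨q - 1, by omega⟩
  have hd := twinData Ψ hΨ (v := v) (i₀ := i₀) (j₀ := j₀) hab ha hb
  have hK : ∀ x, x ≠ some v → x ≠ none →
      ∃ K : Finset (Option V), (twin G v).IsNClique (m + 3) K ∧ x ∈ K ∧ some v ∉ K ∧ none ∉ K := by
    intro x hx0 hx1
    rcases x with _ | w
    · exact absurd rfl hx1
    · obtain ⟨K, hK, hwK, hvK⟩ := hcl w fun h => hx0 (congrArg some h)
      refine ⟨K.map Function.Embedding.some, ⟨?_, ?_⟩, ?_, ?_, ?_⟩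
      · intro c hc d hd hcd
        obtain ⟨c', hc', rfl⟩ := mem_map.1 (mem_coe.1 hc)
        obtain ⟨d', hd', rfl⟩ := mem_map.1 (mem_coe.1 hd)
        exact hK.isClique (mem_coe.2 hc') (mem_coe.2 hd') fun h => hcd (by rw [h])
      · rw [card_map, hK.card_eq]
      · exact mem_map.2 ⟨w, hwK, rfl⟩
      · intro h
        obtain ⟨v', hv', h2⟩ := mem_map.1 h
        exact hvK (Option.some_injective _ h2 ▸ hv')
      · intro h
        obtain ⟨v', -, h2⟩ := mem_map.1 h
        exact Option.some_ne_none v' h2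
  obtain ⟨ψ, -, -, -, hψ⟩ := hd.exists_map (Option.some_ne_none v) {x | 0 < g x}
    (fun x hx hx0 hx1 => hd.repeated hT hα hK hy hg (hyτ.trans hgτ) hx hx0 hx1)
  exact ⟨ψ, fun x x' hx hx' hxx => hψ x hx x' hx' hxx⟩

/-- **Twin graphs have no large clique.** -/
theorem twin_cliqueFree {V VT : Type} {s : ℕ} {T : SimpleGraph VT} (hT : T.CliqueFree s)
    {G : SimpleGraph V} (hG : G.CliqueFree s) (Ψ : Fin s → V → VT)
    (hΨ : ∀ i j b b', i ≠ j → G.Adj b b' → T.Adj (Ψ i b) (Ψ j b')) {v : V} {a b : VT}
    {i₀ j₀ : Fin s} (_hij : i₀ ≠ j₀) (hab : T.Adj a b)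
    (ha : ∀ i w, i ≠ i₀ → G.Adj v w → T.Adj a (Ψ i w))
    (hb : ∀ i w, i ≠ j₀ → G.Adj v w → T.Adj b (Ψ i w)) : (twin G v).CliqueFree s := by
  classical
  intro K hK
  -- the projection to `G` is injective and a homomorphism unless both twins occur
  have hproj : ∀ f : Option V → V, (∀ x ∈ K, ∀ x' ∈ K, x ≠ x' → G.Adj (f x) (f x')) → False := by
    intro f hf
    refine hG (K.image f) ⟨?_, ?_⟩
    · intro c hc d hd hcd
      obtain ⟨c', hc', rfl⟩ := mem_image.1 (mem_coe.1 hc)
      obtain ⟨d', hd', rfl⟩ := mem_image.1 (mem_coe.1 hd)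
      exact hf c' hc' d' hd' fun h => hcd (by rw [h])
    · rw [card_image_of_injOn, hK.card_eq]
      intro c hc d hd hcd
      by_contra hne
      exact (hf c (mem_coe.1 hc) d (mem_coe.1 hd) hne).ne hcd
  have hadj : ∀ x ∈ K, ∀ x' ∈ K, x ≠ x' → (twin G v).Adj x x' := fun x hx x' hx' hne =>
    hK.isClique (mem_coe.2 hx) (mem_coe.2 hx') hne
  by_cases hn : none ∈ K
  · by_cases hv : some v ∈ K
    · -- both twins
      let L : Finset (Option V) := (K.erase none).erase (some v)
      have hvK' : some v ∈ K.erase none := mem_erase.2 ⟨Option.some_ne_none v, hv⟩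
      have hLc : #L + 2 = s := by
        have h1 := card_erase_of_mem hvK'
        have h2 := card_erase_of_mem hn
        have h3 : 0 < #(K.erase none) := card_pos.2 ⟨_, hvK'⟩
        have h4 : 0 < #K := card_pos.2 ⟨_, hn⟩
        have h5 : #L = #(K.erase none) - 1 := h1
        have h6 := hK.card_eq
        omega
      let I : Finset (Fin s) := (univ.erase i₀).erase j₀
      have hIc : #L ≤ #I := by
        have h1 := pred_card_le_card_erase (s := (univ : Finset (Fin s))) (a := i₀)
        have h2 := pred_card_le_card_erase (s := (univ : Finset (Fin s)).erase i₀) (a := j₀)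
        rw [card_univ, Fintype.card_fin] at h1
        have h3 : #I = #(((univ : Finset (Fin s)).erase i₀).erase j₀) := rfl
        omega
      obtain ⟨e⟩ : Nonempty (L ↪ I) := Function.Embedding.nonempty_of_card_le (by
        rwa [Fintype.card_coe, Fintype.card_coe])
      have he : ∀ x : L, (e x : Fin s) ≠ i₀ ∧ (e x : Fin s) ≠ j₀ := by
        intro x
        have h1 : (e x : Fin s) ∈ (univ.erase i₀).erase j₀ := (e x).2
        rw [mem_erase, mem_erase] at h1
        exact ⟨h1.2.1, h1.1⟩
      have hne : ∀ x : L, (x : Option V) ≠ none ∧ (x : Option V) ≠ some v ∧ (x : Option V) ∈ K := by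
        intro x
        have h1 : (x : Option V) ∈ (K.erase none).erase (some v) := x.2
        rw [mem_erase, mem_erase] at h1
        exact ⟨h1.2.1, h1.1, h1.2.2⟩
      -- the values
      let val : Option V → VT := fun x =>
        if x = none then b else if x = some v then a else
          if hx : x ∈ L then Ψ (e ⟨x, hx⟩) (x.getD v) else a
      have hval0 : val none = b := if_pos rfl
      have hval1 : val (some v) = a := by
        show (if some v = none then b else if some v = some v then a else _) = a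
        rw [if_neg (Option.some_ne_none v), if_pos rfl]
      have hval2 : ∀ w, ∀ hw : some w ∈ L, val (some w) = Ψ (e ⟨some w, hw⟩) w := by
        intro w hw
        show (if some w = none then b else if some w = some v then a else _) = _
        rw [if_neg (Option.some_ne_none w), if_neg (hne ⟨some w, hw⟩).2.1, dif_pos hw]
        rfl
      have hmem : ∀ x ∈ K, x = none ∨ x = some v ∨ ∃ w, ∃ _ : some w ∈ L, x = some w := by
        intro x hx
        rcases x with _ | w
        · exact Or.inl rfl
        · by_cases hw : w = v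
          · exact Or.inr (Or.inl (by rw [hw]))
          · refine Or.inr (Or.inr ⟨w, ?_, rfl⟩)
            exact mem_erase.2 ⟨fun h => hw (Option.some_injective _ h),
              mem_erase.2 ⟨Option.some_ne_none w, hx⟩⟩
      have hvw : ∀ w, some w ∈ L → G.Adj v w := by
        intro w hw
        have h1 := hne ⟨some w, hw⟩
        exact hadj (some v) hv (some w) h1.2.2 h1.2.1.symm
      have hv1 : ∀ x ∈ K, ∀ x' ∈ K, x ≠ x' → T.Adj (val x) (val x') := by
        intro x hx x' hx' hxx
        rcases hmem x hx with rfl | rfl | ⟨w, hw, rfl⟩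
        · rcases hmem x' hx' with rfl | rfl | ⟨w', hw', rfl⟩
          · exact absurd rfl hxx
          · rw [hval0, hval1]
            exact hab.symm
          · rw [hval0, hval2 w' hw']
            exact hb _ _ (he _).2 (hvw w' hw')
        · rcases hmem x' hx' with rfl | rfl | ⟨w', hw', rfl⟩
          · rw [hval0, hval1]
            exact hab
          · exact absurd rfl hxx
          · rw [hval1, hval2 w' hw']
            exact ha _ _ (he _).1 (hvw w' hw')
        · rcases hmem x' hx' with rfl | rfl | ⟨w', hw', rfl⟩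
          · rw [hval0, hval2 w hw]
            exact (hb _ _ (he _).2 (hvw w hw)).symm
          · rw [hval1, hval2 w hw]
            exact (ha _ _ (he _).1 (hvw w hw)).symm
          · rw [hval2 w hw, hval2 w' hw']
            refine hΨ _ _ _ _ ?_ (hadj _ hx _ hx' hxx)
            intro h
            have h1 := e.injective (Subtype.ext h)
            exact hxx (congrArg Subtype.val h1)
      refine hT (K.image val) ⟨?_, ?_⟩
      · intro c hc d hd hcd
        obtain ⟨c', hc', rfl⟩ := mem_image.1 (mem_coe.1 hc)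
        obtain ⟨d', hd', rfl⟩ := mem_image.1 (mem_coe.1 hd)
        exact hv1 c' hc' d' hd' fun h => hcd (by rw [h])
      · rw [card_image_of_injOn, hK.card_eq]
        intro c hc d hd hcd
        by_contra hne
        exact (hv1 c (mem_coe.1 hc) d (mem_coe.1 hd) hne).ne hcd
    · refine hproj (fun x => x.getD v) fun x hx x' hx' hxx => ?_
      have h1 := hadj x hx x' hx' hxx
      rcases x with _ | w
      · rcases x' with _ | w'
        · exact absurd rfl hxx
        · have h2 : G.Adj w' v ∨ w' = v := h1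
          rcases h2 with h2 | h2
          · exact h2.symm
          · exact absurd (h2 ▸ hx') hv
      · rcases x' with _ | w'
        · have h2 : G.Adj w v ∨ w = v := h1
          rcases h2 with h2 | h2
          · exact h2
          · exact absurd (h2 ▸ hx) hv
        · exact h1
  · refine hproj (fun x => x.getD v) fun x hx x' hx' hxx => ?_
    have h1 := hadj x hx x' hx' hxx
    rcases x with _ | w
    · exact absurd hx hn
    · rcases x' with _ | w'
      · exact absurd hx' hn
      · exact h1

end Pool.Agent.Lib.H5TP
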